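import Mathlib

set_option autoImplicit false

namespace Pool.Agent.Results.MP_0ab4d0_co.Counter

/-- Property `P_i`: any two distinct vertices are joined by a path with `i` vertices. -/
def HasP {n : ℕ} (G : SimpleGraph (Fin n)) (i : ℕ) : Prop :=
  ∀ u v : Fin n, u ≠ v → ∃ p : G.Walk u v, p.IsPath ∧ p.length + 1 = i

/-- The closure of `S` for graphs of order `n`. -/
def clos (n : ℕ) (S : Set ℕ) : Set ℕ :=
  {j | 2 ≤ j ∧ j ≤ n ∧ ∀ G : SimpleGraph (Fin n), (∀ i ∈ S, HasP G i) → HasP G j}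

def E : List (ℕ × ℕ) := [(0, 2), (1, 3), (0, 4), (1, 4), (2, 5), (3, 5), (0, 6), (1, 6), (2, 6),
  (3, 6), (4, 6)]

def ad (a b : Fin 7) : Bool := E.contains (a.1, b.1) || E.contains (b.1, a.1)

def G0 : SimpleGraph (Fin 7) where
  Adj a b := ad a b = true
  symm := ⟨by decide⟩
  loopless := ⟨by decide⟩

lemma d4 : ∀ u v : Fin 7, u ≠ v → ∃ a, ad u a = true ∧ ∃ b, ad a b = true ∧ ad b v = true ∧
    [u, a, b, v].Nodup := by decide +kernel

lemma d6 : ∀ u v : Fin 7, u ≠ v → ∃ a, ad u a = true ∧ ∃ b, ad a b = true ∧ ∃ c, ad b c = true ∧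
    ∃ d, ad c d = true ∧ ad d v = true ∧ [u, a, b, c, d, v].Nodup := by decide +kernel

lemma d5 : ∀ a b c : Fin 7, ad 4 a = true → ad a b = true → ad b c = true → ad c 6 = true →
    ¬ [4, a, b, c, 6].Nodup := by decide +kernel

open SimpleGraph Walk

lemma p4 : HasP G0 4 := by
  intro u v h
  obtain ⟨a, h1, b, h2, h3, h4⟩ := d4 u v h
  refine ⟨cons (G := G0) h1 (cons h2 (cons h3 nil)), ?_, rfl⟩
  rw [isPath_def]; exact h4

lemma p6 : HasP G0 6 := by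
  intro u v h
  obtain ⟨a, h1, b, h2, c, h3, d, h4, h5, h6⟩ := d6 u v h
  refine ⟨cons (G := G0) h1 (cons h2 (cons h3 (cons h4 (cons h5 nil)))), ?_, rfl⟩
  rw [isPath_def]; exact h6

lemma walk4 {V : Type} {G : SimpleGraph V} {u v : V} (p : G.Walk u v) (h : p.length = 4) :
    ∃ a b c, G.Adj u a ∧ G.Adj a b ∧ G.Adj b c ∧ G.Adj c v ∧ p.support = [u, a, b, c, v] := by
  rcases p with _ | ⟨h1, _ | ⟨h2, _ | ⟨h3, _ | ⟨h4, _ | ⟨h5, p⟩⟩⟩⟩⟩ <;> simp at h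
  exact ⟨_, _, _, h1, h2, h3, h4, rfl⟩

lemma p5 : ¬ HasP G0 5 := by
  intro h
  obtain ⟨p, hp, hl⟩ := h 4 6 (by decide)
  obtain ⟨a, b, c, h1, h2, h3, h4, h5⟩ := walk4 p (by omega)
  rw [isPath_def, h5] at hp
  exact d5 a b c h1 h2 h3 h4 hp

theorem result : ∃ (n : ℕ) (S : Set ℕ) (a b c : ℕ), 4 ≤ n ∧ S ⊆ Set.Icc 4 n ∧ a < b ∧ b < c ∧
    a ∈ clos n S ∧ c ∈ clos n S ∧ b ∉ clos n S := by
  refine ⟨7, {4, 6}, 4, 5, 6, by norm_num, ?_, by norm_num, by norm_num,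
    ⟨by norm_num, by norm_num, fun G h => h 4 (by simp)⟩,
    ⟨by norm_num, by norm_num, fun G h => h 6 (by simp)⟩, fun h => p5 (h.2.2 G0 ?_)⟩
  · rintro x (rfl | rfl) <;> simp
  · rintro x (rfl | rfl)
    · exact p4
    · exact p6

end Pool.Agent.Results.MP_0ab4d0_co.Counter
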